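import Pool.Agent.Helper68.L1PR.Final

/-!
# Bounds for the number of measurements of l1 sparse phase retrieval

`N1 n k` is the least number of vectors of a frame of `ℂ^n` which recovers `k`-sparse signals
by l1 minimisation. Two-sided bounds, and the exact value for two-sparse signals of `ℂ^3`.
-/

set_option autoImplicit false

namespace Pool.Agent.Results.MP_a1165a_an.SparseBounds

open L1PR

/-- For `1 ≤ k ≤ n` the number `N1 n k` is at least `n` and at least `3 k - 2`; it equals `n` for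
`k = 1` and is at most `n + 3 k - 4` for `k ≥ 2`. For two-sparse signals of `ℂ^n`, `n ≥ 3`, at
least five vectors are needed, and `N1 3 2 = 5`. -/
theorem result :
    (∀ n k : ℕ, 1 ≤ k → k ≤ n → n ≤ N1 n k ∧ 3 * k - 2 ≤ N1 n k) ∧
    (∀ n : ℕ, 1 ≤ n → N1 n 1 = n) ∧
    (∀ n k : ℕ, 2 ≤ k → k ≤ n → N1 n k ≤ n + 3 * k - 4) ∧
    (∀ n : ℕ, 3 ≤ n → 5 ≤ N1 n 2) ∧
    N1 2 2 = 4 ∧ N1 3 2 = 5 := by
  have hlow : ∀ n k : ℕ, 1 ≤ k → k ≤ n → n ≤ N1 n k ∧ 3 * k - 2 ≤ N1 n k := by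
    intro n k hk hkn
    obtain ⟨F, hF, hR⟩ := N1_mem (n := n) hk
    exact ⟨frame_card hF, lower hR hk hkn⟩
  have hup : ∀ n k : ℕ, 2 ≤ k → k ≤ n → N1 n k ≤ n + 3 * k - 4 := by
    intro n k hk _
    have h := N1_le (upper (n := n) hk)
    omega
  have hfive : ∀ n : ℕ, 3 ≤ n → 5 ≤ N1 n 2 := by
    intro n hn
    obtain ⟨F, hF, hR⟩ := N1_mem (n := n) (k := 2) (by norm_num)
    exact lower_two hR hn
  refine ⟨hlow, ?_, hup, hfive, ?_, ?_⟩
  · intro n hn
    exact le_antisymm (N1_le upper_one) (hlow n 1 le_rfl hn).1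
  · have h1 := (hlow 2 2 (by norm_num) le_rfl).2
    have h2 := hup 2 2 le_rfl le_rfl
    omega
  · have h1 := hfive 3 le_rfl
    have h2 := hup 3 2 le_rfl (by norm_num)
    omega

end Pool.Agent.Results.MP_a1165a_an.SparseBounds
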